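import Pool.Agent.W128.VA.Stm

/-!
# Project VA: recursion for the operators `R`
-/

set_option autoImplicit false

namespace Pool.Agent.W366.VA.RRec

open Finset Pool.Agent.W128.VA

theorem cf_zero (k : ℤ) : cf k 0 = 1 := by
  rw [cf, pow_zero, one_mul, Ring.choose_zero_right, Int.cast_one]

theorem cf_succ (k : ℤ) (j : ℕ) : cf (k + 1) (j + 1) = cf k (j + 1) - cf k j := by
  rw [cf, cf, cf, Ring.choose_succ_succ, pow_succ]
  push_cast
  ring

theorem shift {W : Type} [AddCommGroup W] [Module ℂ W] (k : ℤ) (f g : ℕ → W) (J : ℕ)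
    (hfg : ∀ j, f (j + 1) = g j) (hJ : g J = 0) :
    ∑ j ∈ range (J + 1), cf (k + 1) j • f j =
      ∑ j ∈ range (J + 1), cf k j • f j - ∑ j ∈ range (J + 1), cf k j • g j := by
  rw [Finset.sum_range_succ' (fun j => cf (k + 1) j • f j),
    Finset.sum_range_succ' (fun j => cf k j • f j), Finset.sum_range_succ (fun j => cf k j • g j),
    hJ, smul_zero, add_zero, cf_zero, cf_zero]
  have h1 : ∑ j ∈ range J, cf (k + 1) (j + 1) • f (j + 1) =
      ∑ j ∈ range J, cf k (j + 1) • f (j + 1) - ∑ j ∈ range J, cf k j • g j := by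
    rw [← Finset.sum_sub_distrib]
    refine Finset.sum_congr rfl fun j _ => ?_
    rw [cf_succ, sub_smul, hfg]
  rw [h1]
  abel

theorem split {W : Type} [AddCommGroup W] [Module ℂ W] (c : ℕ → ℂ) (s : ℂ) (f g : ℕ → W) (J : ℕ) :
    ∑ j ∈ range J, c j • (f j - s • g j) =
      ∑ j ∈ range J, c j • f j - s • ∑ j ∈ range J, c j • g j := by
  rw [Finset.smul_sum, ← Finset.sum_sub_distrib]
  refine Finset.sum_congr rfl fun j _ => ?_
  rw [smul_sub, smul_comm s]

theorem main : S_RREC := by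
  intro W _ _ a b k m n
  ext w
  obtain ⟨N1, h1⟩ := b.tr w
  obtain ⟨N2, h2⟩ := a.tr w
  obtain ⟨J, hJ1, hJ2⟩ : ∃ J : ℕ, N1 ≤ n + J ∧ N2 ≤ m + J :=
    ⟨(N1 - n).toNat + (N2 - m).toNat, by omega, by omega⟩
  have hb : ∀ j : ℕ, J ≤ j → b.m (n + j) w = 0 := fun j hj => h1 _ (by omega)
  have ha : ∀ j : ℕ, J ≤ j → a.m (m + j) w = 0 := fun j hj => h2 _ (by omega)
  have hb' : ∀ j : ℕ, J ≤ j → b.m (n + 1 + j) w = 0 := fun j hj => h1 _ (by omega)
  have ha' : ∀ j : ℕ, J ≤ j → a.m (m + 1 + j) w = 0 := fun j hj => h2 _ (by omega)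
  set f : ℕ → W := fun j => a.m (m + 1 + k - j) (b.m (n + j) w) with hf
  set g : ℕ → W := fun j => a.m (m + k - j) (b.m (n + 1 + j) w) with hg
  set f' : ℕ → W := fun j => b.m (n + 1 + k - j) (a.m (m + j) w) with hf'
  set g' : ℕ → W := fun j => b.m (n + k - j) (a.m (m + 1 + j) w) with hg'
  have hfg : ∀ j, f (j + 1) = g j := by
    intro j
    rw [hf, hg]
    simp only
    rw [show m + 1 + k - ((j + 1 : ℕ) : ℤ) = m + k - j by push_cast; ring,
      show n + ((j + 1 : ℕ) : ℤ) = n + 1 + j by push_cast; ring]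
  have hfg' : ∀ j, f' (j + 1) = g' j := by
    intro j
    rw [hf', hg']
    simp only
    rw [show n + 1 + k - ((j + 1 : ℕ) : ℤ) = n + k - j by push_cast; ring,
      show m + ((j + 1 : ℕ) : ℤ) = m + 1 + j by push_cast; ring]
  have hgJ : g J = 0 := by
    rw [hg]
    simp only
    rw [hb' J le_rfl, map_zero]
  have hgJ' : g' J = 0 := by
    rw [hg']
    simp only
    rw [ha' J le_rfl, map_zero]
  have e1 : R a b (k + 1) m n w = ∑ j ∈ range (J + 1), cf (k + 1) j •
      (f j - ((-1 : ℂ) ^ (k + 1)) • f' j) := by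
    rw [R_apply' a b (k + 1) m n w (J + 1) (fun j hj => hb j (by omega))
      (fun j hj => ha j (by omega))]
    refine Finset.sum_congr rfl fun j _ => ?_
    rw [tm, hf, hf']
    simp only
    rw [show m + (k + 1) - (j : ℤ) = m + 1 + k - j by ring,
      show n + (k + 1) - (j : ℤ) = n + 1 + k - j by ring]
  have e2 : R a b k (m + 1) n w = ∑ j ∈ range (J + 1), cf k j •
      (f j - ((-1 : ℂ) ^ k) • g' j) :=
    R_apply' a b k (m + 1) n w (J + 1) (fun j hj => hb j (by omega)) (fun j hj => ha' j (by omega))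
  have e3 : R a b k m (n + 1) w = ∑ j ∈ range (J + 1), cf k j •
      (g j - ((-1 : ℂ) ^ k) • f' j) :=
    R_apply' a b k m (n + 1) w (J + 1) (fun j hj => hb' j (by omega)) (fun j hj => ha j (by omega))
  rw [LinearMap.sub_apply, e1, e2, e3, split, split, split, shift k f g J hfg hgJ,
    shift k f' g' J hfg' hgJ', zpow_add_one₀ (by norm_num : (-1 : ℂ) ≠ 0), mul_neg_one, neg_smul,
    smul_sub]
  abel

end Pool.Agent.W366.VA.RRec
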